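import Pool.Agent.Helper55.RL.Sharp

/-!
# Accepted strings in every Hamming ball
-/

set_option autoImplicit false

namespace Pool.Agent.Results.MP_92893d_lc.HammingBalls

open Pool.Agent.Helper55.RL

/-- The probability that a binomial random variable with parameters `2k+a-1` and `1/2` lies in
`{k, …, k+a-1}` (for `a ≥ 1`; the value is `0` for `a = 0`). -/
noncomputable def centralProb (k a : ℕ) : ℝ :=
  (∑ j ∈ Finset.Ico k (k + a), ((2 * k + a - 1).choose j : ℝ)) / 2 ^ (2 * k + a - 1)

theorem dist_eq {n : ℕ} (u b : Fin n → Bool) :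
    bdist (fun i => if h : i < n then u ⟨i, h⟩ else false) b = hammingDist u b := by
  unfold bdist hammingDist
  rw [Finset.card_filter]
  refine Finset.sum_congr rfl fun i _ => ?_
  show (if b i = (if h : (i : ℕ) < n then u ⟨i, h⟩ else false) then 0 else 1) = _
  rw [dif_pos i.2]
  by_cases h : b i = u i
  · rw [if_pos h, if_neg (by simp [h])]
  · rw [if_neg h, if_pos (fun h' => h h'.symm)]

/-- **Sharp Hamming ball theorem.** Let `(f, s)` be a program of length `n` (of any width) with
accepting states `A` and a system of weights `w`, let `a` be the total weight of `A`, and suppose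
that the acceptance probability `p` is positive.  Then for every bit string `u` there is an accepted
bit string `b` such that `p` is at most the central binomial probability
`P(d ≤ Bin(2d+a-1,1/2) ≤ d+a-1)`, `d` the Hamming distance of `u` and `b`; in particular
`p² (2d+1) ≤ a²`.  The bound is attained for all `d` and `a ≥ 1`. -/
theorem result :
    (∀ (V : Type) (f : ℕ → V → Bool → V) (s : V) (n : ℕ) (A : Finset V) (w : ℕ → V → ℕ),
      IsWeight f s n A w → 0 < cnt f s n A → ∀ u : Fin n → Bool,
        ∃ b : Fin n → Bool, st f s n b ∈ A ∧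
          (cnt f s n A : ℝ) / 2 ^ n ≤ centralProb (hammingDist u b) (∑ y ∈ A, w n y) ∧
          ((cnt f s n A : ℝ) / 2 ^ n) ^ 2 * (2 * hammingDist u b + 1) ≤
            (∑ y ∈ A, (w n y : ℝ)) ^ 2) ∧
    (∀ k a : ℕ, 1 ≤ a → ∃ (f : ℕ → ℕ → Bool → ℕ) (s : ℕ) (A : Finset ℕ) (w : ℕ → ℕ → ℕ),
      IsWeight f s (2 * k + a - 1) A w ∧ ∑ y ∈ A, w (2 * k + a - 1) y = a ∧
      (∀ b : Fin (2 * k + a - 1) → Bool, st f s (2 * k + a - 1) b ∈ A →
        k ≤ hammingDist (fun _ => false) b) ∧
      (cnt f s (2 * k + a - 1) A : ℝ) / 2 ^ (2 * k + a - 1) = centralProb k a) := by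
  classical
  refine ⟨?_, ?_⟩
  · intro V f s n A w hw hpos u
    set u' : ℕ → Bool := fun i => if h : i < n then u ⟨i, h⟩ else false with hu'
    have hne : ((Finset.univ : Finset (Fin n → Bool)).filter fun b => st f s n b ∈ A).Nonempty := by
      rw [← Finset.card_pos]
      have : cnt f s n A =
          ((Finset.univ : Finset (Fin n → Bool)).filter fun b => st f s n b ∈ A).card := by
        unfold cnt
        congr
      rwa [this] at hpos
    obtain ⟨b, hb, hmin⟩ := Finset.exists_min_image _ (fun b : Fin n → Bool => bdist u' b) hne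
    rw [Finset.mem_filter] at hb
    have h1 := main_ineq f s hw u' (bdist u' b) (fun b' hb' hA => by
      have := hmin b' (Finset.mem_filter.2 ⟨Finset.mem_univ _, hA⟩)
      omega)
    rw [hu', dist_eq] at h1
    refine ⟨b, hb.2, h1, ?_⟩
    have h2 := beta_sq (hammingDist u b) (∑ y ∈ A, w n y)
    have h3 : (0 : ℝ) ≤ (cnt f s n A : ℝ) / 2 ^ n := by positivity
    have h4 := pow_le_pow_left₀ h3 h1 2
    have h5 : (0 : ℝ) ≤ 2 * hammingDist u b + 1 := by positivity
    have h6 := mul_le_mul_of_nonneg_right h4 h5
    push_cast at h2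
    exact h6.trans h2
  · intro k a ha
    refine ⟨cf, 0, Finset.Ico k (k + a), fun _ _ => 1, isWeight_cf _ _, by simp, ?_, ?_⟩
    · intro b hb
      rw [st_cf, Finset.mem_Ico] at hb
      have h1 : hammingDist (fun _ => false) b = ones b := by
        rw [ones_eq_card]
        unfold hammingDist
        congr 1
        ext i
        simp only [Finset.mem_filter, Finset.mem_univ, true_and]
        cases b i <;> simp
      rw [h1]
      exact hb.1
    · rw [cnt_cf]
      rfl

end Pool.Agent.Results.MP_92893d_lc.HammingBalls
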